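import Mathlib

namespace Pool.Agent.Lib.MP_4016fc_al

/-- `H` is an ascendant subgroup of `G`: a member of an ascending (possibly transfinite) series
`H = f 0 ◁ f 1 ◁ ⋯ ◁ f β ◁ f (β + 1) ◁ ⋯ f α = G`, continuous at limit ordinals. -/
def IsAscendant {G : Type} [Group G] (H : Subgroup G) : Prop :=
  ∃ (α : Ordinal.{0}) (f : Ordinal.{0} → Subgroup G),
    f 0 = H ∧ f α = ⊤ ∧
    (∀ β < α, f β ≤ f (β + 1) ∧ ((f β).subgroupOf (f (β + 1))).Normal) ∧
    (∀ l ≤ α, Order.IsSuccLimit l → f l = ⨆ β < l, f β)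

end Pool.Agent.Lib.MP_4016fc_al
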