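import Mathlib
import Pool.Agent.Lib.MP_4016fc_al.Defs

namespace Pool.Agent.Lib.MP_4016fc_al

open Subgroup
open scoped commutatorElement

variable {G : Type} [Group G]

/-- an `ω`-chain of normal steps whose union is a normal subgroup gives an ascendant subgroup -/
theorem isAscendant_of_seq (K : ℕ → Subgroup G) (M : Subgroup G) (hM : M.Normal)
    (hK : ∀ n, K n ≤ K (n + 1) ∧ ((K n).subgroupOf (K (n + 1))).Normal)
    (hsup : M = ⨆ n, K n) : IsAscendant (K 0) := by
  classical
  let f : Ordinal.{0} → Subgroup G := fun β =>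
    if h : β < Ordinal.omega0 then K (Classical.choose (Ordinal.lt_omega0.1 h))
    else if β = Ordinal.omega0 then M else ⊤
  have hfn : ∀ n : ℕ, f (n : Ordinal.{0}) = K n := by
    intro n
    have h : (n : Ordinal.{0}) < Ordinal.omega0 := Ordinal.natCast_lt_omega0 n
    have h2 := Classical.choose_spec (Ordinal.lt_omega0.1 h)
    have h3 : n = Classical.choose (Ordinal.lt_omega0.1 h) := by exact_mod_cast h2
    simp only [f, dif_pos h]
    rw [← h3]
  have hfw : f Ordinal.omega0 = M := by simp [f]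
  have hfw1 : f (Ordinal.omega0 + 1) = ⊤ := by
    have h1 : ¬ (Ordinal.omega0.{0} + 1 < Ordinal.omega0) := not_lt.2 le_self_add
    have h2 : Ordinal.omega0.{0} + 1 ≠ Ordinal.omega0 := (lt_add_one _).ne'
    simp only [f, dif_neg h1, if_neg h2]
  refine ⟨Ordinal.omega0 + 1, f, ?_, hfw1, ?_, ?_⟩
  · simpa using hfn 0
  · intro β hβ
    have hβ' : β ≤ Ordinal.omega0 := Order.lt_add_one_iff.1 hβ
    rcases hβ'.lt_or_eq with h | h
    · obtain ⟨n, rfl⟩ := Ordinal.lt_omega0.1 h
      have e : ((n : Ordinal.{0}) + 1) = ((n + 1 : ℕ) : Ordinal.{0}) := by simp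
      rw [e, hfn, hfn]
      exact hK n
    · subst h
      rw [hfw, hfw1]
      exact ⟨le_top, inferInstance⟩
  · intro l hl hlim
    have hl1 : l ≠ Ordinal.omega0 + 1 := by
      rintro rfl
      simp at hlim
    have hl2 : l ≤ Ordinal.omega0 := Order.lt_add_one_iff.1 (lt_of_le_of_ne hl hl1)
    have hl3 : Ordinal.omega0 ≤ l := Ordinal.omega0_le_of_isSuccLimit hlim
    have hl4 : l = Ordinal.omega0 := le_antisymm hl2 hl3
    subst hl4
    rw [hfw, hsup]
    apply le_antisymm
    · refine iSup_le fun n => ?_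
      rw [← hfn]
      exact le_iSup₂_of_le (f := fun β (_ : β < Ordinal.omega0) => f β) (n : Ordinal.{0})
        (Ordinal.natCast_lt_omega0 n) le_rfl
    · refine iSup₂_le fun β hβ => ?_
      obtain ⟨n, rfl⟩ := Ordinal.lt_omega0.1 hβ
      rw [hfn]
      exact le_iSup K n

theorem normal_step (H P : Subgroup G) (hHP : H ≤ P) (i : ℕ) :
    ((H ⊔ (P ⊓ Subgroup.lowerCentralSeries ⊤ (i + 1))).subgroupOf
      (H ⊔ (P ⊓ Subgroup.lowerCentralSeries ⊤ i))).Normal := by
  have hle : H ⊔ (P ⊓ Subgroup.lowerCentralSeries ⊤ (i + 1)) ≤ H ⊔ (P ⊓ Subgroup.lowerCentralSeries ⊤ i) :=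
    sup_le_sup_left (inf_le_inf_left _ (Subgroup.lowerCentralSeries_antitone _ (Nat.le_succ i))) _
  rw [normal_subgroupOf_iff_le_normalizer hle]
  refine sup_le (le_sup_left.trans le_normalizer) ?_
  have hAP : H ⊔ (P ⊓ Subgroup.lowerCentralSeries ⊤ (i + 1)) ≤ P := sup_le hHP inf_le_left
  have key : ∀ g ∈ P ⊓ Subgroup.lowerCentralSeries ⊤ i, ∀ a ∈ H ⊔ (P ⊓ Subgroup.lowerCentralSeries ⊤ (i + 1)),
      g * a * g⁻¹ ∈ H ⊔ (P ⊓ Subgroup.lowerCentralSeries ⊤ (i + 1)) := by
    intro g hg a ha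
    have e : g * a * g⁻¹ = ⁅g, a⁆ * a := by simp [commutatorElement_def]
    rw [e]
    obtain ⟨hg1, hg2⟩ := mem_inf.1 hg
    refine mul_mem (mem_sup_right (mem_inf.2 ⟨?_, ?_⟩)) ha
    · rw [commutatorElement_def]
      exact P.mul_mem (P.mul_mem (P.mul_mem hg1 (hAP ha)) (P.inv_mem hg1)) (P.inv_mem (hAP ha))
    · rw [Subgroup.lowerCentralSeries_succ]
      exact commutator_mem_commutator hg2 (mem_top a)
  intro g hg
  rw [mem_normalizer_iff]
  intro a
  constructor
  · exact key g hg a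
  · intro h
    have := key g⁻¹ (inv_mem hg) _ h
    simpa [mul_assoc] using this

theorem isAscendant_of_chain (P : ℕ → Subgroup G) (hP : ∀ R, P R ≤ P (R + 1))
    (M : Subgroup G) (hM : M.Normal) (hsup : M = ⨆ R, P R)
    (hc : ∀ R, ∃ c, P (R + 1) ⊓ Subgroup.lowerCentralSeries ⊤ c ≤ P R) : IsAscendant (P 0) := by
  choose c hc using hc
  let nx : ℕ × ℕ → ℕ × ℕ := fun s => match s with
    | (R, 0) => (R + 1, c (R + 1))
    | (R, i + 1) => (R, i)
  let F : ℕ × ℕ → Subgroup G := fun s => P s.1 ⊔ (P (s.1 + 1) ⊓ Subgroup.lowerCentralSeries ⊤ s.2)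
  have hFc : ∀ R, F (R, c R) = P R := fun R => sup_eq_left.2 (hc R)
  have hF0 : ∀ R, F (R, 0) = P (R + 1) := fun R => by
    simp only [F, Subgroup.lowerCentralSeries_zero, le_top, inf_of_le_left]
    exact sup_eq_right.2 (hP R)
  have hstep : ∀ s, F s ≤ F (nx s) ∧ ((F s).subgroupOf (F (nx s))).Normal := by
    rintro ⟨R, i⟩
    cases i with
    | zero =>
      have e : F (nx (R, 0)) = F (R, 0) := (hFc (R + 1)).trans (hF0 R).symm
      rw [e]
      exact ⟨le_rfl, by rw [subgroupOf_self]; infer_instance⟩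
    | succ i =>
      exact ⟨sup_le_sup_left (inf_le_inf_left _
        (Subgroup.lowerCentralSeries_antitone _ (Nat.le_succ i))) _, normal_step _ _ (hP R) i⟩
  let K : ℕ → Subgroup G := fun n => F (nx^[n] (0, c 0))
  have hK0 : K 0 = P 0 := hFc 0
  have hreach : ∀ i R, nx^[i + 1] (R, i) = (R + 1, c (R + 1)) := by
    intro i
    induction i with
    | zero => intro R; rfl
    | succ i ih => intro R; rw [Function.iterate_succ_apply]; exact ih R
  have hex : ∀ R, ∃ n, nx^[n] (0, c 0) = (R, c R) := by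
    intro R
    induction R with
    | zero => exact ⟨0, rfl⟩
    | succ R ih =>
      obtain ⟨n, hn⟩ := ih
      exact ⟨(c R + 1) + n, by rw [Function.iterate_add_apply, hn, hreach]⟩
  rw [← hK0]
  refine isAscendant_of_seq K M hM (fun n => ?_) ?_
  · have e : K (n + 1) = F (nx (nx^[n] (0, c 0))) := by
      simp only [K, Function.iterate_succ_apply']
    rw [e]
    exact hstep _
  · rw [hsup]
    apply le_antisymm
    · refine iSup_le fun R => ?_
      obtain ⟨n, hn⟩ := hex R
      refine le_iSup_of_le n ?_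
      simp only [K, hn, hFc, le_refl]
    · refine iSup_le fun n => ?_
      refine le_iSup_of_le ((nx^[n] (0, c 0)).1 + 1) ?_
      exact sup_le (hP _) inf_le_left

theorem IsAscendant.map_equiv {H : Subgroup G} (h : IsAscendant H) (θ : G ≃* G) :
    IsAscendant (H.map θ.toMonoidHom) := by
  obtain ⟨α, f, h0, hα, hs, hl⟩ := h
  refine ⟨α, fun β => (f β).map θ.toMonoidHom, by simp only [h0], ?_, ?_, ?_⟩
  · simp only [hα]
    exact map_top_of_surjective _ θ.surjective
  · intro β hβ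
    obtain ⟨h1, h2⟩ := hs β hβ
    refine ⟨map_mono h1, ?_⟩
    rw [normal_subgroupOf_iff (map_mono h1)]
    rw [normal_subgroupOf_iff h1] at h2
    rintro _ _ ⟨a, ha, rfl⟩ ⟨b, hb, rfl⟩
    exact ⟨b * a * b⁻¹, h2 a b ha hb, by simp⟩
  · intro l hl1 hl2
    simp only [hl l hl1 hl2, Subgroup.map_iSup]

end Pool.Agent.Lib.MP_4016fc_al
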