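import Mathlib

namespace Pool.Agent.Lib.MP_4016fc_al

abbrev F := ZMod 2
abbrev Idx := Σ r : ℕ, ZMod (2 ^ (r + 1)) × ZMod (2 ^ (r + 1))
abbrev V := Idx → F
abbrev E := Module.End F V

def pt (r : ℕ) (q : ℤ × ℤ) : Idx := ⟨r, ((q.1 : ZMod (2 ^ (r + 1))), (q.2 : ZMod (2 ^ (r + 1))))⟩
def dg (r : ℕ) : ℤ × ℤ := (2 ^ r, 2 ^ r)

@[simp] theorem pt_fst (r : ℕ) (q : ℤ × ℤ) : (pt r q).1 = r := rfl
@[simp] theorem dg_fst (r : ℕ) : (dg r).1 = 2 ^ r := rfl
@[simp] theorem dg_snd (r : ℕ) : (dg r).2 = 2 ^ r := rfl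

theorem pt_eq_iff (r : ℕ) (q q' : ℤ × ℤ) :
    pt r q = pt r q' ↔ (2 : ℤ) ^ (r + 1) ∣ q'.1 - q.1 ∧ (2 : ℤ) ^ (r + 1) ∣ q'.2 - q.2 := by
  unfold pt
  rw [Sigma.mk.inj_iff]
  simp only [heq_eq_eq, true_and, Prod.mk.injEq, ZMod.intCast_eq_intCast_iff_dvd_sub]
  push_cast
  rfl

theorem pt_ne {r r' : ℕ} (h : r ≠ r') (q q' : ℤ × ℤ) : pt r q ≠ pt r' q' := by
  intro e
  exact h (congrArg Sigma.fst e)

theorem pt_surj (ν : Idx) : ∃ r q, ν = pt r q := by
  obtain ⟨r, a, b⟩ := ν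
  obtain ⟨a, rfl⟩ := ZMod.intCast_surjective a
  obtain ⟨b, rfl⟩ := ZMod.intCast_surjective b
  exact ⟨r, (a, b), rfl⟩

theorem V_ext {f g : V} (h : ∀ r p, f (pt r p) = g (pt r p)) : f = g := by
  funext ν
  obtain ⟨r, p, rfl⟩ := pt_surj ν
  exact h r p

theorem E_ext {a b : E} (h : ∀ f r p, a f (pt r p) = b f (pt r p)) : a = b :=
  LinearMap.ext fun f => V_ext (h f)

theorem F_add_self (a : F) : a + a = 0 := by
  revert a; decide

theorem E_add_self (a : E) : a + a = 0 :=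
  E_ext fun f r p => by simp [F_add_self]

open Classical in
/-- the basic operators -/
noncomputable def x (q : ℤ × ℤ) : E where
  toFun f := fun ν => if ν = pt ν.1 (q + dg ν.1) then f (pt (ν.1 + 1) q) else 0
  map_add' f g := by
    funext ν
    simp only [Pi.add_apply]
    split_ifs <;> simp
  map_smul' c f := by
    funext ν
    simp only [Pi.smul_apply, RingHom.id_apply]
    split_ifs <;> simp

open Classical in
theorem x_apply (q : ℤ × ℤ) (f : V) (r : ℕ) (p : ℤ × ℤ) :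
    x q f (pt r p) = if pt r p = pt r (q + dg r) then f (pt (r + 1) q) else 0 := rfl

def sh (v : ℤ × ℤ) (ν : Idx) : Idx := ⟨ν.1, (ν.2.1 - v.1, ν.2.2 - v.2)⟩

theorem sh_pt (v : ℤ × ℤ) (r : ℕ) (p : ℤ × ℤ) : sh v (pt r p) = pt r (p - v) := by
  simp only [sh, pt, Prod.fst_sub, Prod.snd_sub, Int.cast_sub]
  rfl

/-- translations -/
def tr (v : ℤ × ℤ) : E := LinearMap.funLeft F F (sh v)

theorem tr_apply (v : ℤ × ℤ) (f : V) (r : ℕ) (p : ℤ × ℤ) :
    tr v f (pt r p) = f (pt r (p - v)) := by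
  rw [← sh_pt]; rfl

theorem tr_zero : tr 0 = 1 := E_ext fun f r p => by simp [tr_apply]

theorem tr_mul (v w : ℤ × ℤ) : tr v * tr w = tr (v + w) :=
  E_ext fun f r p => by simp [tr_apply, sub_sub]

theorem tr_mul_x (v q : ℤ × ℤ) : tr v * x q = x (q + v) * tr v := by
  refine E_ext fun f r p => ?_
  simp only [Module.End.mul_apply, tr_apply, x_apply, add_sub_cancel_right]
  have : pt r (p - v) = pt r (q + dg r) ↔ pt r p = pt r (q + v + dg r) := by
    simp only [pt_eq_iff, Prod.fst_add, Prod.snd_add, Prod.fst_sub, Prod.snd_sub]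
    constructor <;> rintro ⟨h1, h2⟩ <;> constructor
    · convert h1 using 1; ring
    · convert h2 using 1; ring
    · convert h1 using 1; ring
    · convert h2 using 1; ring
  simp only [this]

def sw (ν : Idx) : Idx := ⟨ν.1, ν.2.swap⟩

theorem sw_pt (r : ℕ) (p : ℤ × ℤ) : sw (pt r p) = pt r p.swap := rfl

/-- the coordinate swap -/
def swE : E := LinearMap.funLeft F F sw

theorem swE_apply (f : V) (r : ℕ) (p : ℤ × ℤ) : swE f (pt r p) = f (pt r p.swap) := rfl

theorem swE_mul_swE : swE * swE = 1 := E_ext fun f r p => by simp [swE_apply]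

theorem swE_mul_tr (v : ℤ × ℤ) : swE * tr v = tr v.swap * swE :=
  E_ext fun f r p => by
    simp only [Module.End.mul_apply, swE_apply, tr_apply]
    rfl

theorem swE_mul_x (q : ℤ × ℤ) : swE * x q = x q.swap * swE := by
  refine E_ext fun f r p => ?_
  simp only [Module.End.mul_apply, swE_apply, x_apply, Prod.swap_swap]
  have : pt r p.swap = pt r (q + dg r) ↔ pt r p = pt r (q.swap + dg r) := by
    simp only [pt_eq_iff, Prod.fst_add, Prod.snd_add, Prod.fst_swap, Prod.snd_swap, dg_fst, dg_snd]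
    exact and_comm
  simp only [this]

theorem two_mul_lt_pow (n : ℕ) : 2 * n < 2 ^ (n + 1) := by
  have := Nat.lt_two_pow_self (n := n)
  rw [pow_succ]; omega

theorem not_dvd_pow (r : ℕ) : ¬ (2 : ℤ) ^ (r + 1) ∣ 2 ^ r := by
  intro h
  have h1 : (0 : ℤ) < 2 ^ r := by positivity
  have := Int.le_of_dvd h1 h
  rw [pow_succ] at this
  omega

theorem lev_le {r : ℕ} {q q' : ℤ × ℤ} (h : pt r q = pt r (q' + dg r)) {R : ℕ}
    (hq : q.2.natAbs ≤ R) (hq' : q'.2.natAbs ≤ R) : r ≤ R := by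
  have h2 := ((pt_eq_iff _ _ _).1 h).2
  simp only [Prod.snd_add, dg_snd] at h2
  have hne : q'.2 - q.2 ≠ 0 := by
    intro e
    apply not_dvd_pow r
    convert h2 using 1
    linarith
  have hd : (2 : ℤ) ^ r ∣ q'.2 - q.2 := by
    have h3 : (2 : ℤ) ^ r ∣ q'.2 + 2 ^ r - q.2 := (pow_dvd_pow 2 (Nat.le_succ r)).trans h2
    have h4 := dvd_sub h3 (dvd_refl ((2 : ℤ) ^ r))
    rwa [show q'.2 + 2 ^ r - q.2 - 2 ^ r = q'.2 - q.2 by ring] at h4
  have h5 : ((2 : ℤ) ^ r).natAbs ≤ (q'.2 - q.2).natAbs := Int.natAbs_le_of_dvd_ne_zero hd hne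
  have h6 : ((2 : ℤ) ^ r).natAbs = 2 ^ r := by simp [Int.natAbs_pow]
  have h7 : 2 ^ r < 2 ^ (R + 1) := by
    have := two_mul_lt_pow R
    omega
  have := (Nat.pow_lt_pow_iff_right (by norm_num : 1 < 2)).1 h7
  omega

theorem not_row {r : ℕ} {q q' : ℤ × ℤ} (e : q.2 = q'.2) : pt r q ≠ pt r (q' + dg r) := by
  intro h
  have h2 := ((pt_eq_iff _ _ _).1 h).2
  simp only [Prod.snd_add, dg_snd, e] at h2
  apply not_dvd_pow r
  convert h2 using 1
  ring

theorem x_mul_x_row {q q' : ℤ × ℤ} (e : q.2 = q'.2) : x q * x q' = 0 := by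
  refine E_ext fun f r p => ?_
  simp only [Module.End.mul_apply, x_apply, if_neg (not_row e)]
  simp

/-- neighbour in the same row -/
def nb (q : ℤ × ℤ) : ℤ × ℤ := (q.1 + 2 ^ (q.2.natAbs + 2), q.2)

@[simp] theorem nb_snd (q : ℤ × ℤ) : (nb q).2 = q.2 := rfl

noncomputable def d (q : ℤ × ℤ) : E := x q + x (nb q)

theorem pt_nb {r : ℕ} {q : ℤ × ℤ} (h : r ≤ q.2.natAbs + 1) (w : ℤ × ℤ) :
    pt r (nb q + w) = pt r (q + w) := by
  rw [pt_eq_iff]
  simp only [nb, Prod.fst_add, Prod.snd_add, sub_self, dvd_zero, and_true]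
  have : q.1 + w.1 - (q.1 + 2 ^ (q.2.natAbs + 2) + w.1) = -2 ^ (q.2.natAbs + 2) := by ring
  rw [this, dvd_neg]
  exact pow_dvd_pow 2 (by omega)

theorem d_apply_low {q : ℤ × ℤ} {r : ℕ} (h : r ≤ q.2.natAbs) (f : V) (p : ℤ × ℤ) :
    d q f (pt r p) = 0 := by
  have h1 := pt_nb (r := r) (q := q) (by omega) (dg r)
  have h2 := pt_nb (r := r + 1) (q := q) (by omega) 0
  simp only [add_zero] at h2
  simp only [d, LinearMap.add_apply, Pi.add_apply, x_apply, h1, h2, F_add_self]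

theorem x_mul_d {q q' : ℤ × ℤ} (h : q.2.natAbs ≤ q'.2.natAbs) : x q * d q' = 0 := by
  refine E_ext fun f r p => ?_
  simp only [Module.End.mul_apply, x_apply, LinearMap.zero_apply, Pi.zero_apply]
  split_ifs with h1
  · by_cases h2 : r + 1 ≤ q'.2.natAbs
    · exact d_apply_low h2 _ _
    · have h3 : pt (r + 1) q ≠ pt (r + 1) (q' + dg (r + 1)) := fun e => h2 (lev_le e h le_rfl)
      have h4 : pt (r + 1) q ≠ pt (r + 1) (nb q' + dg (r + 1)) := fun e =>
        h2 (lev_le e h (by simp))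
      simp [d, x_apply, h3, h4]
  · rfl

theorem d_mul_x {q q' : ℤ × ℤ} (h : q.2.natAbs ≤ q'.2.natAbs) : d q' * x q = 0 := by
  refine E_ext fun f r p => ?_
  simp only [Module.End.mul_apply, LinearMap.zero_apply, Pi.zero_apply]
  by_cases h2 : r ≤ q'.2.natAbs
  · exact d_apply_low h2 _ _
  · have h3 : pt (r + 1) q' ≠ pt (r + 1) (q + dg (r + 1)) := fun e =>
      h2 (by have := lev_le e le_rfl h; omega)
    have h4 : pt (r + 1) (nb q') ≠ pt (r + 1) (q + dg (r + 1)) := fun e =>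
      h2 (by have := lev_le (R := q'.2.natAbs) e (by simp) h; omega)
    simp [d, x_apply, h3, h4]

theorem d_mul_d (q q' : ℤ × ℤ) : d q * d q' = 0 := by
  rcases le_total q.2.natAbs q'.2.natAbs with h | h
  · rw [d, add_mul, x_mul_d h, x_mul_d (by simpa using h), add_zero]
  · rw [show d q' = x q' + x (nb q') from rfl, mul_add, d_mul_x h, d_mul_x (by simpa using h),
      add_zero]

/-- functions supported on the levels below `n` -/
def W (n : ℕ) : Submodule F V where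
  carrier := {f | ∀ r p, n ≤ r → f (pt r p) = 0}
  add_mem' := by
    intro f g hf hg r p h
    simp [hf r p h, hg r p h]
  zero_mem' := fun _ _ _ => rfl
  smul_mem' := by
    intro c f hf r p h
    simp [hf r p h]

theorem mem_W {n : ℕ} {f : V} : f ∈ W n ↔ ∀ r p, n ≤ r → f (pt r p) = 0 := Iff.rfl

theorem W_mono {n m : ℕ} (h : n ≤ m) : W n ≤ W m := fun _ hf r p hr => hf r p (h.trans hr)

theorem eq_zero_of_W0 {f : V} (h : f ∈ W 0) : f = 0 := V_ext fun r p => h r p (Nat.zero_le r)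

def Low (k : ℕ) (a : E) : Prop := ∀ n f, f ∈ W (n + k) → a f ∈ W n

def Sup (l : ℕ) (a : E) : Prop := ∀ f : V, (∀ r p, r < l → f (pt r p) = 0) → a f = 0

theorem Low.zero (k : ℕ) : Low k 0 := fun n _ _ => (W n).zero_mem

theorem Low.add {k : ℕ} {a b : E} (ha : Low k a) (hb : Low k b) : Low k (a + b) :=
  fun n f hf => (W n).add_mem (ha n f hf) (hb n f hf)

theorem Low.smul {k : ℕ} {a : E} (ha : Low k a) (c : F) : Low k (c • a) :=
  fun n f hf => (W n).smul_mem c (ha n f hf)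

theorem Low.mul {k l : ℕ} {a b : E} (ha : Low k a) (hb : Low l b) : Low (k + l) (a * b) :=
  fun n f hf => ha n _ (hb (n + k) f (by rwa [add_assoc]))

theorem Low.mono {k l : ℕ} {a : E} (ha : Low k a) (h : l ≤ k) : Low l a :=
  fun n f hf => ha n f (W_mono (by omega) hf)

theorem low_one : Low 0 1 := fun _ _ hf => hf

theorem low_x (q : ℤ × ℤ) : Low 1 (x q) := by
  intro n f hf r p hr
  rw [x_apply]
  split_ifs
  · exact hf _ _ (by omega)
  · rfl

theorem low_tr (v : ℤ × ℤ) : Low 0 (tr v) := by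
  intro n f hf r p hr
  rw [tr_apply]
  exact hf _ _ hr

theorem Sup.zero (l : ℕ) : Sup l 0 := fun _ _ => rfl

theorem Sup.add {l : ℕ} {a b : E} (ha : Sup l a) (hb : Sup l b) : Sup l (a + b) :=
  fun f hf => by simp [ha f hf, hb f hf]

theorem Sup.smul {l : ℕ} {a : E} (ha : Sup l a) (c : F) : Sup l (c • a) :=
  fun f hf => by simp [ha f hf]

theorem Sup.mul_left {l : ℕ} {b : E} (hb : Sup l b) (a : E) : Sup l (a * b) :=
  fun f hf => by simp [hb f hf]

theorem Sup.mul_tr {l : ℕ} {b : E} (hb : Sup l b) (v : ℤ × ℤ) : Sup l (b * tr v) :=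
  fun f hf => hb _ fun r p hr => by rw [tr_apply]; exact hf _ _ hr

theorem sup_x_mul_x {R : ℕ} {q q' : ℤ × ℤ} (hq : q.2.natAbs ≤ R) (hq' : q'.2.natAbs ≤ R) :
    Sup (R + 2) (x q * x q') := by
  intro f hf
  refine V_ext fun r p => ?_
  simp only [Module.End.mul_apply, x_apply, Pi.zero_apply]
  split_ifs with h1 h2
  · exact hf _ _ (by have := lev_le h2 hq hq'; omega)
  · rfl
  · rfl

open Classical in
/-- truncation to the levels below `n` -/
noncomputable def trunc (n : ℕ) (f : V) : V := fun ν => if ν.1 < n then f ν else 0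

theorem trunc_apply (n : ℕ) (f : V) (r : ℕ) (p : ℤ × ℤ) :
    trunc n f (pt r p) = if r < n then f (pt r p) else 0 := by
  simp [trunc]

theorem trunc_mem (n : ℕ) (f : V) : trunc n f ∈ W n := by
  intro r p h
  rw [trunc_apply, if_neg (by omega)]

theorem Sup.eq_zero {l : ℕ} {y : E} (hy : Sup l y) (h : ∀ f ∈ W l, y f = 0) : y = 0 := by
  refine LinearMap.ext fun f => ?_
  have e : f = trunc l f + (f - trunc l f) := by abel
  rw [e, map_add, h _ (trunc_mem l f), hy, add_zero, LinearMap.zero_apply]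
  intro r p hr
  simp [trunc_apply, hr]

end Pool.Agent.Lib.MP_4016fc_al
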