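import Mathlib
import Pool.Agent.Lib.MP_4016fc_al.Ops

namespace Pool.Agent.Lib.MP_4016fc_al

/-- the span of the rows of index at most `R` and of the neighbour sums -/
noncomputable def U (R : ℕ) : Submodule F E :=
  Submodule.span F ({a | ∃ q : ℤ × ℤ, q.2.natAbs ≤ R ∧ a = x q} ∪ {a | ∃ q, a = d q})

theorem x_mem_U {R : ℕ} {q : ℤ × ℤ} (h : q.2.natAbs ≤ R) : x q ∈ U R :=
  Submodule.subset_span (Or.inl ⟨q, h, rfl⟩)

theorem d_mem_U (R : ℕ) (q : ℤ × ℤ) : d q ∈ U R :=
  Submodule.subset_span (Or.inr ⟨q, rfl⟩)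

theorem U_induction {R : ℕ} {p : E → Prop} (hx : ∀ q : ℤ × ℤ, q.2.natAbs ≤ R → p (x q))
    (hd : ∀ q, p (d q)) (h0 : p 0) (hadd : ∀ a b, p a → p b → p (a + b)) {u : E}
    (hu : u ∈ U R) : p u := by
  induction hu using Submodule.span_induction with
  | mem a ha =>
    rcases ha with ⟨q, hq, rfl⟩ | ⟨q, rfl⟩
    · exact hx q hq
    · exact hd q
  | zero => exact h0
  | add a b _ _ ha hb => exact hadd a b ha hb
  | smul c a _ ha =>
    have : c = 0 ∨ c = 1 := by revert c; decide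
    rcases this with rfl | rfl
    · simpa using h0
    · simpa using ha

theorem low_U {R : ℕ} {u : E} (hu : u ∈ U R) : Low 1 u :=
  U_induction (fun q _ => low_x q) (fun q => (low_x q).add (low_x _)) (Low.zero 1)
    (fun _ _ => Low.add) hu

theorem sup_U_mul {R : ℕ} {u u' : E} (hu : u ∈ U R) (hu' : u' ∈ U R) : Sup (R + 2) (u * u') := by
  refine U_induction (p := fun u => Sup (R + 2) (u * u')) ?_ ?_ ?_ ?_ hu
  · intro q hq
    refine U_induction (p := fun u' => Sup (R + 2) (x q * u')) ?_ ?_ ?_ ?_ hu'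
    · intro q' hq'
      exact sup_x_mul_x hq hq'
    · intro q'
      rcases le_total q.2.natAbs q'.2.natAbs with h | h
      · rw [x_mul_d h]; exact Sup.zero _
      · rw [d, mul_add]
        exact (sup_x_mul_x hq (h.trans hq)).add (sup_x_mul_x hq (by simpa using h.trans hq))
    · rw [mul_zero]; exact Sup.zero _
    · intro a b ha hb
      rw [mul_add]; exact ha.add hb
  · intro q
    refine U_induction (p := fun u' => Sup (R + 2) (d q * u')) ?_ ?_ ?_ ?_ hu'
    · intro q' hq'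
      rcases le_total q'.2.natAbs q.2.natAbs with h | h
      · rw [d_mul_x h]; exact Sup.zero _
      · rw [d, add_mul]
        exact (sup_x_mul_x (h.trans hq') hq').add (sup_x_mul_x (by simpa using h.trans hq') hq')
    · intro q'
      rw [d_mul_d]; exact Sup.zero _
    · rw [mul_zero]; exact Sup.zero _
    · intro a b ha hb
      rw [mul_add]; exact ha.add hb
  · rw [zero_mul]; exact Sup.zero _
  · intro a b ha hb
    rw [add_mul]; exact ha.add hb

theorem eq_zero_of_low_sup {y : E} (h1 : Low 2 y) (h2 : Sup 2 y) : y = 0 :=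
  h2.eq_zero fun f hf => eq_zero_of_W0 (h1 0 f hf)

theorem U0_mul {u u' : E} (hu : u ∈ U 0) (hu' : u' ∈ U 0) : u * u' = 0 :=
  eq_zero_of_low_sup ((low_U hu).mul (low_U hu')) (sup_U_mul hu hu')

theorem tr_mul_U {R : ℕ} (k : ℤ) {u : E} (hu : u ∈ U R) :
    ∃ u' ∈ U R, tr (k, 0) * u = u' * tr (k, 0) := by
  refine U_induction (p := fun u => ∃ u' ∈ U R, tr (k, 0) * u = u' * tr (k, 0)) ?_ ?_ ?_ ?_ hu
  · intro q hq
    exact ⟨x (q + (k, 0)), x_mem_U (by simpa using hq), tr_mul_x _ _⟩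
  · intro q
    refine ⟨d (q + (k, 0)), d_mem_U _ _, ?_⟩
    have : nb (q + (k, 0)) = nb q + (k, 0) := by
      ext <;> simp [nb]; ring
    rw [d, d, mul_add, add_mul, tr_mul_x, tr_mul_x, this]
  · exact ⟨0, (U R).zero_mem, by simp⟩
  · rintro a b ⟨a', ha', ea⟩ ⟨b', hb', eb⟩
    exact ⟨a' + b', (U R).add_mem ha' hb', by rw [mul_add, add_mul, ea, eb]⟩

theorem hom_U {R : ℕ} {u : E} (hu : u ∈ U R) (f : V) (r : ℕ) (hf : ∀ p, f (pt (r + 1) p) = 0)
    (p : ℤ × ℤ) : u f (pt r p) = 0 := by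
  have hx : ∀ q, x q f (pt r p) = 0 := fun q => by simp [x_apply, hf]
  refine U_induction (p := fun u => u f (pt r p) = 0) (fun q _ => hx q) (fun q => ?_) rfl ?_ hu
  · simp [d, hx]
  · intro a b ha hb
    simp [ha, hb]

noncomputable def xi : ((ℤ × ℤ) →₀ F) →ₗ[F] E := Finsupp.linearCombination F x

theorem xi_single (q : ℤ × ℤ) : xi (Finsupp.single q 1) = x q := by simp [xi]

noncomputable def Ph (R : ℕ) : Submodule F ((ℤ × ℤ) →₀ F) :=
  Submodule.span F ({a | ∃ q : ℤ × ℤ, q.2.natAbs ≤ R ∧ a = Finsupp.single q 1} ∪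
    {a | ∃ q, a = Finsupp.single q 1 + Finsupp.single (nb q) 1})

theorem single_mem_Ph {R : ℕ} {q : ℤ × ℤ} (h : q.2.natAbs ≤ R) : Finsupp.single q 1 ∈ Ph R :=
  Submodule.subset_span (Or.inl ⟨q, h, rfl⟩)

theorem dd_mem_Ph (R : ℕ) (q : ℤ × ℤ) :
    Finsupp.single q 1 + Finsupp.single (nb q) 1 ∈ Ph R :=
  Submodule.subset_span (Or.inr ⟨q, rfl⟩)

theorem Ph_induction {R : ℕ} {p : ((ℤ × ℤ) →₀ F) → Prop}
    (hx : ∀ q : ℤ × ℤ, q.2.natAbs ≤ R → p (Finsupp.single q 1))
    (hd : ∀ q, p (Finsupp.single q 1 + Finsupp.single (nb q) 1)) (h0 : p 0)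
    (hadd : ∀ a b, p a → p b → p (a + b)) {u : (ℤ × ℤ) →₀ F}
    (hu : u ∈ Ph R) : p u := by
  induction hu using Submodule.span_induction with
  | mem a ha =>
    rcases ha with ⟨q, hq, rfl⟩ | ⟨q, rfl⟩
    · exact hx q hq
    · exact hd q
  | zero => exact h0
  | add a b _ _ ha hb => exact hadd a b ha hb
  | smul c a _ ha =>
    have : c = 0 ∨ c = 1 := by revert c; decide
    rcases this with rfl | rfl
    · simpa using h0
    · simpa using ha

theorem exists_Ph_of_U {R : ℕ} {u : E} (hu : u ∈ U R) : ∃ φ ∈ Ph R, xi φ = u := by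
  refine U_induction (p := fun u => ∃ φ ∈ Ph R, xi φ = u) ?_ ?_ ?_ ?_ hu
  · intro q hq
    exact ⟨_, single_mem_Ph hq, xi_single q⟩
  · intro q
    exact ⟨_, dd_mem_Ph R q, by rw [map_add, xi_single, xi_single, d]⟩
  · exact ⟨0, (Ph R).zero_mem, map_zero _⟩
  · rintro a b ⟨a', ha', ea⟩ ⟨b', hb', eb⟩
    exact ⟨a' + b', (Ph R).add_mem ha' hb', by rw [map_add, ea, eb]⟩

theorem xi_mem_U {R : ℕ} {φ : (ℤ × ℤ) →₀ F} (h : φ ∈ Ph R) : xi φ ∈ U R := by
  refine Ph_induction (p := fun φ => xi φ ∈ U R) ?_ ?_ ?_ ?_ h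
  · intro q hq
    rw [xi_single]; exact x_mem_U hq
  · intro q
    rw [map_add, xi_single, xi_single]; exact d_mem_U R q
  · rw [map_zero]; exact (U R).zero_mem
  · intro a b ha hb
    rw [map_add]; exact (U R).add_mem ha hb

theorem fs_add_self (a : (ℤ × ℤ) →₀ F) : a + a = 0 := by
  ext q; simp [F_add_self]

theorem single_shift_mem (R : ℕ) (a j n : ℤ) :
    Finsupp.single (a, j) 1 + Finsupp.single (a + n * 2 ^ (j.natAbs + 2), j) 1 ∈ Ph R := by
  induction n using Int.induction_on with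
  | zero => simp only [zero_mul, add_zero, fs_add_self]; exact (Ph R).zero_mem
  | succ n ih =>
    have h := (Ph R).add_mem ih (dd_mem_Ph R (a + n * 2 ^ (j.natAbs + 2), j))
    have e : nb (a + n * 2 ^ (j.natAbs + 2), j) = (a + (n + 1) * 2 ^ (j.natAbs + 2), j) := by
      ext <;> simp [nb]; ring
    rw [e, add_assoc, ← add_assoc (Finsupp.single (a + n * 2 ^ (j.natAbs + 2), j) 1), fs_add_self,
      zero_add] at h
    exact h
  | pred n ih =>
    have h := (Ph R).add_mem ih (dd_mem_Ph R (a + (-n - 1) * 2 ^ (j.natAbs + 2), j))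
    have e : nb (a + (-n - 1) * 2 ^ (j.natAbs + 2), j) = (a + (-n) * 2 ^ (j.natAbs + 2), j) := by
      ext <;> simp [nb]; ring
    rw [e, add_comm (Finsupp.single (a + (-n - 1) * 2 ^ (j.natAbs + 2), j) 1), add_assoc,
      ← add_assoc (Finsupp.single (a + (-n) * 2 ^ (j.natAbs + 2), j) 1), fs_add_self,
      zero_add] at h
    exact h

def rho (q : ℤ × ℤ) : ℤ × ℤ := (q.1 % 2 ^ (q.2.natAbs + 2), q.2)

theorem rho_nb (q : ℤ × ℤ) : rho (nb q) = rho q := by
  simp [rho, nb]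

theorem add_rho_mem (R : ℕ) (φ : (ℤ × ℤ) →₀ F) : φ + Finsupp.mapDomain rho φ ∈ Ph R := by
  induction φ using Finsupp.induction_linear with
  | zero => simp
  | add a b ha hb =>
    rw [Finsupp.mapDomain_add, add_add_add_comm]
    exact (Ph R).add_mem ha hb
  | single q c =>
    have : c = 0 ∨ c = 1 := by revert c; decide
    rcases this with rfl | rfl
    · simp
    · rw [Finsupp.mapDomain_single]
      obtain ⟨a, j⟩ := q
      have h := single_shift_mem R a j (-(a / 2 ^ (j.natAbs + 2)))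
      have e : a + -(a / 2 ^ (j.natAbs + 2)) * 2 ^ (j.natAbs + 2) = a % 2 ^ (j.natAbs + 2) := by
        rw [Int.emod_def]; ring
      rw [e] at h
      exact h

theorem mem_Ph_of_rho {R : ℕ} {φ : (ℤ × ℤ) →₀ F}
    (h : ∀ q : ℤ × ℤ, R < q.2.natAbs → Finsupp.mapDomain rho φ q = 0) : φ ∈ Ph R := by
  have h1 : Finsupp.mapDomain rho φ ∈ Ph R := by
    rw [← Finsupp.sum_single (Finsupp.mapDomain rho φ), Finsupp.sum]
    refine Submodule.sum_mem _ fun q hq => ?_
    have h2 : q.2.natAbs ≤ R := by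
      by_contra h3
      exact (Finsupp.mem_support_iff.1 hq) (h q (by omega))
    have := (Ph R).smul_mem (Finsupp.mapDomain rho φ q) (single_mem_Ph h2)
    simpa using this
  have h2 := (Ph R).add_mem (add_rho_mem R φ) h1
  rwa [add_assoc, fs_add_self, add_zero] at h2

theorem rho_of_mem_Ph {R : ℕ} {φ : (ℤ × ℤ) →₀ F} (h : φ ∈ Ph R) (q : ℤ × ℤ)
    (hq : R < q.2.natAbs) : Finsupp.mapDomain rho φ q = 0 := by
  refine Ph_induction (p := fun φ => Finsupp.mapDomain rho φ q = 0) ?_ ?_ ?_ ?_ h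
  · intro q' hq'
    rw [Finsupp.mapDomain_single, Finsupp.single_eq_of_ne]
    intro e
    have : q.2 = q'.2 := by rw [e]; rfl
    rw [this] at hq
    omega
  · intro q'
    rw [Finsupp.mapDomain_add, Finsupp.mapDomain_single, Finsupp.mapDomain_single, rho_nb,
      fs_add_self]
    rfl
  · simp
  · intro a b ha hb
    rw [Finsupp.mapDomain_add, Finsupp.add_apply, ha, hb, add_zero]

theorem rho_eq_iff {r : ℕ} {q q' : ℤ × ℤ} (hq : q.2.natAbs = r) (hq' : q'.2.natAbs ≤ r) :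
    rho q' = rho q ↔ pt (r + 1) q' = pt (r + 1) q := by
  rw [pt_eq_iff]
  simp only [rho, Prod.mk.injEq]
  constructor
  · rintro ⟨h1, h2⟩
    rw [h2, hq] at h1
    refine ⟨?_, by simp [h2]⟩
    exact Int.ModEq.dvd h1
  · rintro ⟨h1, h2⟩
    have h3 : q.2 - q'.2 = 0 := by
      by_contra hne
      have h5 := Int.natAbs_le_of_dvd_ne_zero h2 hne
      have h6 : ((2 : ℤ) ^ (r + 1 + 1)).natAbs = 2 ^ (r + 1 + 1) := by simp [Int.natAbs_pow]
      have := two_mul_lt_pow (r + 1)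
      omega
    have h4 : q'.2 = q.2 := by omega
    refine ⟨?_, h4⟩
    rw [h4, hq]
    exact (Int.modEq_iff_dvd.2 h1)

open Classical in
theorem rho_eval {r : ℕ} {φ : (ℤ × ℤ) →₀ F} (h : φ ∈ Ph r) (q : ℤ × ℤ) (hq : q.2.natAbs = r) :
    Finsupp.mapDomain rho φ (rho q) =
      xi φ (Pi.single (pt (r + 1) q) 1) (pt r (q + dg r)) := by
  have hs : ∀ q' : ℤ × ℤ, q'.2.natAbs ≤ r → Finsupp.mapDomain rho (Finsupp.single q' 1) (rho q) =
      x q' (Pi.single (pt (r + 1) q) 1) (pt r (q + dg r)) := by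
    intro q' hq'
    rw [Finsupp.mapDomain_single, x_apply, Finsupp.single_apply, Pi.single_apply]
    by_cases e : pt (r + 1) q' = pt (r + 1) q
    · have e2 : pt r (q + dg r) = pt r (q' + dg r) := by
        rw [pt_eq_iff] at e ⊢
        simp only [Prod.fst_add, Prod.snd_add, add_sub_add_right_eq_sub]
        exact ⟨dvd_sub_comm.1 ((pow_dvd_pow 2 (Nat.le_succ _)).trans e.1),
          dvd_sub_comm.1 ((pow_dvd_pow 2 (Nat.le_succ _)).trans e.2)⟩
      rw [if_pos ((rho_eq_iff hq hq').2 e), if_pos e2, if_pos e]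
    · rw [if_neg (fun e' => e ((rho_eq_iff hq hq').1 e')), if_neg e]
      simp
  refine Ph_induction (p := fun φ => Finsupp.mapDomain rho φ (rho q) =
      xi φ (Pi.single (pt (r + 1) q) 1) (pt r (q + dg r))) ?_ ?_ ?_ ?_ h
  · intro q' hq'
    rw [xi_single]; exact hs q' hq'
  · intro q'
    rw [map_add, xi_single, xi_single]
    rcases le_total q'.2.natAbs r with h1 | h1
    · rw [Finsupp.mapDomain_add, Finsupp.add_apply, hs q' h1, hs (nb q') (by simpa using h1)]
      rfl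
    · rw [Finsupp.mapDomain_add, Finsupp.mapDomain_single, Finsupp.mapDomain_single, rho_nb,
        fs_add_self]
      exact (d_apply_low h1 _ _).symm
  · simp
  · intro a b ha hb
    rw [Finsupp.mapDomain_add, Finsupp.add_apply, ha, hb, map_add]
    rfl

theorem Ph_step {R : ℕ} {φ : (ℤ × ℤ) →₀ F} (h : φ ∈ Ph (R + 1))
    (hk : ∀ f ∈ W (R + 3), xi φ f = 0) : φ ∈ Ph R := by
  classical
  refine mem_Ph_of_rho fun q hq => ?_
  rcases (Nat.succ_le_of_lt hq).lt_or_eq with h1 | h1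
  · exact rho_of_mem_Ph h q h1
  · by_cases h2 : q ∈ Set.range rho
    · obtain ⟨q0, rfl⟩ := h2
      rw [rho_eval h q0 h1.symm, hk]
      · rfl
      · intro r p hr
        rw [Pi.single_apply, if_neg (pt_ne (by omega) _ _)]
    · exact Finsupp.mapDomain_of_notMem_range _ _ h2

theorem U_key {R : ℕ} {u : E} (hu : u ∈ U R) (hk : ∀ f ∈ W (R + 2), u f = 0) : u ∈ U 0 := by
  obtain ⟨φ, hφ, rfl⟩ := exists_Ph_of_U hu
  apply xi_mem_U
  clear hu
  induction R with
  | zero => exact hφ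
  | succ R ih =>
    exact ih (Ph_step hφ hk) fun f hf => hk f (W_mono (by omega) hf)

end Pool.Agent.Lib.MP_4016fc_al
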