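import Mathlib
import Pool.Agent.Lib.MP_4016fc_al.Span
import Pool.Agent.Lib.MP_4016fc_al.Chain

namespace Pool.Agent.Lib.MP_4016fc_al

open Subgroup
open scoped commutatorElement

theorem one_add_sq {a : E} (h : a * a = 0) : (1 + a) * (1 + a) = 1 := by
  rw [add_mul, one_mul, mul_add, mul_one, h, add_zero, add_assoc, E_add_self, add_zero]

/-- the involution `1 + x q` -/
noncomputable def X (q : ℤ × ℤ) : Eˣ :=
  ⟨1 + x q, 1 + x q, one_add_sq (x_mul_x_row rfl), one_add_sq (x_mul_x_row rfl)⟩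

/-- translations as units -/
def T (v : ℤ × ℤ) : Eˣ :=
  ⟨tr v, tr (-v), by rw [tr_mul, add_neg_cancel, tr_zero], by rw [tr_mul, neg_add_cancel, tr_zero]⟩

/-- the swap as a unit -/
def Sw : Eˣ := ⟨swE, swE, swE_mul_swE, swE_mul_swE⟩

@[simp] theorem X_val (q : ℤ × ℤ) : (X q : E) = 1 + x q := rfl
@[simp] theorem T_val (v : ℤ × ℤ) : (T v : E) = tr v := rfl
@[simp] theorem Sw_val : (Sw : E) = swE := rfl

theorem X_inv (q : ℤ × ℤ) : (X q)⁻¹ = X q := rfl
theorem T_inv (v : ℤ × ℤ) : (T v)⁻¹ = T (-v) := Units.ext rfl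
theorem T_mul (v w : ℤ × ℤ) : T v * T w = T (v + w) := Units.ext (tr_mul v w)
theorem T_zero : T 0 = 1 := Units.ext tr_zero

theorem T_mul_X (v q : ℤ × ℤ) : T v * X q = X (q + v) * T v :=
  Units.ext (by simp [mul_add, add_mul, tr_mul_x])

theorem conj_X (v q : ℤ × ℤ) : T v * X q * (T v)⁻¹ = X (q + v) := by
  rw [T_mul_X, mul_inv_cancel_right]

theorem T_zsmul (v : ℤ × ℤ) (n : ℤ) : T (n • v) = T v ^ n := by
  induction n using Int.induction_on with
  | zero => simp [T_zero]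
  | succ n ih => rw [add_smul, one_smul, ← T_mul, ih, zpow_add_one]
  | pred n ih => rw [sub_smul, one_smul, sub_eq_add_neg, ← T_mul, ih, zpow_sub_one, T_inv]

theorem XX_val (q : ℤ × ℤ) : ((X q * X (nb q) : Eˣ) : E) = 1 + d q := by
  rw [Units.val_mul, X_val, X_val, add_mul, one_mul, mul_add, mul_one, x_mul_x_row (by simp),
    add_zero, d, add_assoc, add_comm (x (nb q))]

/-- the group -/
noncomputable def GG : Subgroup Eˣ := closure {X 0, T (1, 0), T (0, 1)}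

theorem T_mem_GG (v : ℤ × ℤ) : T v ∈ GG := by
  have e : v = v.1 • ((1, 0) : ℤ × ℤ) + v.2 • ((0, 1) : ℤ × ℤ) := by ext <;> simp
  rw [e, ← T_mul, T_zsmul, T_zsmul]
  exact GG.mul_mem (GG.zpow_mem (subset_closure (by simp)) _)
    (GG.zpow_mem (subset_closure (by simp)) _)

theorem X_mem_GG (q : ℤ × ℤ) : X q ∈ GG := by
  have := conj_X q 0
  rw [zero_add] at this
  rw [← this]
  exact GG.mul_mem (GG.mul_mem (T_mem_GG q) (subset_closure (by simp))) (GG.inv_mem (T_mem_GG q))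

/-- the chain of subgroups -/
noncomputable def PP (R : ℕ) : Subgroup Eˣ :=
  closure ({T (1, 0)} ∪ {g | ∃ q : ℤ × ℤ, q.2.natAbs ≤ R ∧ g = X q} ∪
    {g | ∃ q, g = X q * X (nb q)})

theorem T_mem_PP (R : ℕ) (k : ℤ) : T (k, 0) ∈ PP R := by
  have e : ((k, 0) : ℤ × ℤ) = k • ((1, 0) : ℤ × ℤ) := by ext <;> simp
  rw [e, T_zsmul]
  exact (PP R).zpow_mem (subset_closure (Or.inl (Or.inl rfl))) _

theorem X_mem_PP {R : ℕ} {q : ℤ × ℤ} (h : q.2.natAbs ≤ R) : X q ∈ PP R :=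
  subset_closure (Or.inl (Or.inr ⟨q, h, rfl⟩))

theorem XX_mem_PP (R : ℕ) (q : ℤ × ℤ) : X q * X (nb q) ∈ PP R :=
  subset_closure (Or.inr ⟨q, rfl⟩)

theorem PP_le {R : ℕ} {H : Subgroup Eˣ} (h1 : T (1, 0) ∈ H)
    (h2 : ∀ q : ℤ × ℤ, q.2.natAbs ≤ R → X q ∈ H) (h3 : ∀ q, X q * X (nb q) ∈ H) : PP R ≤ H := by
  rw [PP, closure_le]
  rintro g ((rfl | ⟨q, hq, rfl⟩) | ⟨q, rfl⟩)
  · exact h1
  · exact h2 q hq
  · exact h3 q

theorem PP_mono {R R' : ℕ} (h : R ≤ R') : PP R ≤ PP R' :=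
  PP_le (T_mem_PP _ 1) (fun _ hq => X_mem_PP (hq.trans h)) (XX_mem_PP _)

theorem PP_le_GG (R : ℕ) : PP R ≤ GG :=
  PP_le (T_mem_GG _) (fun q _ => X_mem_GG q) fun _ => GG.mul_mem (X_mem_GG _) (X_mem_GG _)

/-- normal form in `PP R` -/
def NF (R : ℕ) (g : Eˣ) : Prop :=
  ∃ u ∈ U R, ∃ y : E, Low 2 y ∧ Sup (R + 2) y ∧ ∃ k : ℤ, (g : E) = (1 + u + y) * tr (k, 0)

theorem NF_T {R : ℕ} {g : Eˣ} (h : NF R g) (k : ℤ) : NF R (T (k, 0) * g) := by
  obtain ⟨u, hu, y, hy1, hy2, l, e⟩ := h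
  obtain ⟨u', hu', eu⟩ := tr_mul_U k hu
  refine ⟨u', hu', tr (k, 0) * y * tr (-(k, 0)), ?_, ?_, k + l, ?_⟩
  · simpa using ((low_tr (k, 0)).mul hy1).mul (low_tr (-(k, 0)))
  · exact (hy2.mul_left _).mul_tr _
  · have e2 : tr ((k + l, 0) : ℤ × ℤ) = tr (k, 0) * tr (l, 0) := by rw [tr_mul]; simp
    have e3 : tr (-((k, 0) : ℤ × ℤ)) * tr (k, 0) = 1 := by rw [tr_mul, neg_add_cancel, tr_zero]
    rw [Units.val_mul, T_val, e, e2, ← mul_assoc, ← mul_assoc]
    congr 1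
    rw [mul_add, mul_add, mul_one, eu, add_mul, add_mul, one_mul, mul_assoc (tr (k, 0) * y), e3,
      mul_one]

theorem NF_one_add {R : ℕ} {g h : Eˣ} (hg : NF R g) {c : E} (hc : c ∈ U R) (e : (h : E) = 1 + c) :
    NF R (h * g) := by
  obtain ⟨u, hu, y, hy1, hy2, l, eg⟩ := hg
  refine ⟨u + c, (U R).add_mem hu hc, y + c * u + c * y, ?_, ?_, l, ?_⟩
  · exact (hy1.add ((low_U hc).mul (low_U hu))).add (((low_U hc).mul hy1).mono (by omega))
  · exact (hy2.add (sup_U_mul hc hu)).add (hy2.mul_left _)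
  · rw [Units.val_mul, e, eg, ← mul_assoc]
    congr 1
    noncomm_ring

theorem XX_inv (q : ℤ × ℤ) : (X q * X (nb q))⁻¹ = X q * X (nb q) := by
  apply inv_eq_of_mul_eq_one_right
  apply Units.ext
  rw [Units.val_mul, XX_val, one_add_sq (d_mul_d q q), Units.val_one]

theorem NF_of_mem {R : ℕ} {g : Eˣ} (hg : g ∈ PP R) : NF R g := by
  induction hg using closure_induction_left with
  | one =>
    refine ⟨0, (U R).zero_mem, 0, Low.zero _, Sup.zero _, 0, ?_⟩
    rw [add_zero, add_zero, one_mul]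
    exact tr_zero.symm
  | mul_left a ha b _ hb =>
    rcases ha with (rfl | ⟨q, hq, rfl⟩) | ⟨q, rfl⟩
    · exact NF_T hb 1
    · exact NF_one_add hb (x_mem_U hq) rfl
    · exact NF_one_add hb (d_mem_U R q) (XX_val q)
  | inv_mul_cancel a ha b _ hb =>
    rcases ha with (rfl | ⟨q, hq, rfl⟩) | ⟨q, rfl⟩
    · rw [T_inv]
      simpa using NF_T hb (-1)
    · exact NF_one_add hb (x_mem_U hq) rfl
    · rw [XX_inv]
      exact NF_one_add hb (d_mem_U R q) (XX_val q)

theorem one_add_mem_PP {u : E} (hu : u ∈ U 0) : ∃ h ∈ PP 0, (h : E) = 1 + u := by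
  have := U_induction (p := fun u => u ∈ U 0 ∧ ∃ h ∈ PP 0, (h : E) = 1 + u)
    (fun q hq => ⟨x_mem_U hq, X q, X_mem_PP hq, rfl⟩)
    (fun q => ⟨d_mem_U _ q, _, XX_mem_PP 0 q, XX_val q⟩)
    ⟨(U 0).zero_mem, 1, (PP 0).one_mem, by simp⟩ ?_ hu
  · exact this.2
  · rintro a b ⟨ha, g, hg, eg⟩ ⟨hb, h, hh, eh⟩
    refine ⟨(U 0).add_mem ha hb, g * h, (PP 0).mul_mem hg hh, ?_⟩
    rw [Units.val_mul, eg, eh, add_mul, one_mul, mul_add, mul_one, U0_mul ha hb, add_zero,
      add_assoc, add_comm b]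

/-- the pointwise stabiliser of `W n` -/
def KK (n : ℕ) : Subgroup Eˣ where
  carrier := {g | ∀ f ∈ W n, (g : E) f = f}
  one_mem' := fun _ _ => rfl
  mul_mem' := by
    intro a b ha hb f hf
    rw [Units.val_mul, Module.End.mul_apply, hb f hf, ha f hf]
  inv_mem' := by
    intro a ha f hf
    conv_lhs => rw [← ha f hf]
    rw [← Module.End.mul_apply, Units.inv_mul, Module.End.one_apply]

theorem PP_inf_KK (R : ℕ) : PP R ⊓ KK (R + 2) ≤ PP 0 := by
  intro g hg
  obtain ⟨hg1, hg2⟩ := mem_inf.1 hg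
  obtain ⟨u, hu, y, hy1, hy2, k, e⟩ := NF_of_mem hg1
  have hlow : Low 1 (u + y) := (low_U hu).add (hy1.mono (by omega))
  have hg3 : ∀ f ∈ W (R + 2), tr (k, 0) f + (u + y) (tr (k, 0) f) = f := by
    intro f hf
    have := hg2 f hf
    rw [e, add_assoc] at this
    simpa using this
  have hA : ∀ f ∈ W (R + 2), tr (k, 0) f = f := by
    intro f hf
    refine V_ext fun r p => ?_
    by_cases hr : R + 2 ≤ r
    · rw [tr_apply, hf _ _ hr, hf _ _ hr]
    · have h1 : trunc (r + 1) f ∈ W (r + 1) := trunc_mem _ _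
      have h2 := congrFun (hg3 _ (W_mono (by omega) h1)) (pt r p)
      have h3 := hlow r _ (low_tr (k, 0) (r + 1) _ h1) r p le_rfl
      rw [Pi.add_apply, h3, add_zero, tr_apply, trunc_apply, trunc_apply, if_pos (by omega),
        if_pos (by omega)] at h2
      rw [tr_apply, h2]
  have hB : ∀ f ∈ W (R + 2), (u + y) f = 0 := by
    intro f hf
    have := hg3 f hf
    rw [hA f hf] at this
    simpa using this
  have hC : ∀ f ∈ W (R + 2), u f = 0 := by
    intro f hf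
    refine V_ext fun r p => ?_
    by_cases hr : R + 2 ≤ r + 1
    · exact hom_U hu f r (fun p => hf _ _ hr) p
    · have h1 : trunc (r + 2) f ∈ W (r + 2) := trunc_mem _ _
      have h2 := congrFun (hB _ (W_mono (by omega) h1)) (pt r p)
      have h3 := hy1 r _ h1 r p le_rfl
      rw [LinearMap.add_apply, Pi.add_apply, h3, add_zero] at h2
      have h4 := hom_U hu (f - trunc (r + 2) f) r (fun p => by simp [trunc_apply]) p
      rw [map_sub, Pi.sub_apply, h2] at h4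
      simpa using h4
  have hy0 : y = 0 := hy2.eq_zero fun f hf => by
    have := hB f hf
    rwa [LinearMap.add_apply, hC f hf, zero_add] at this
  obtain ⟨h, hh, eh⟩ := one_add_mem_PP (U_key hu hC)
  have : g = h * T (k, 0) := Units.ext (by rw [e, hy0, add_zero, Units.val_mul, eh, T_val])
  rw [this]
  exact (PP 0).mul_mem hh (T_mem_PP 0 k)

/-- normal form in `GG` -/
def NG (g : Eˣ) : Prop := ∃ a : E, Low 1 a ∧ ∃ v, (g : E) = (1 + a) * tr v

theorem NG.mul {g h : Eˣ} (hg : NG g) (hh : NG h) : NG (g * h) := by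
  obtain ⟨a, ha, v, eg⟩ := hg
  obtain ⟨b, hb, w, eh⟩ := hh
  have hb' : Low 1 (tr v * b * tr (-v)) := by
    simpa using ((low_tr v).mul hb).mul (low_tr (-v))
  refine ⟨a + tr v * b * tr (-v) + a * (tr v * b * tr (-v)),
    (ha.add hb').add ((ha.mul hb').mono (by omega)), v + w, ?_⟩
  have e3 : tr (-v) * tr v = 1 := by rw [tr_mul, neg_add_cancel, tr_zero]
  have e4 : tr v * (1 + b) = (1 + tr v * b * tr (-v)) * tr v := by
    rw [mul_add, add_mul, mul_one, one_mul, mul_assoc (tr v * b), e3, mul_one]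
  rw [Units.val_mul, eg, eh, ← tr_mul, mul_assoc, ← mul_assoc (tr v), e4]
  noncomm_ring

theorem NG_T (v : ℤ × ℤ) : NG (T v) := ⟨0, Low.zero _, v, by simp⟩

theorem NG_X (q : ℤ × ℤ) : NG (X q) := ⟨x q, low_x q, 0, by simp [tr_zero]⟩

theorem NG_of_mem {g : Eˣ} (hg : g ∈ GG) : NG g := by
  induction hg using closure_induction_left with
  | one => rw [← T_zero]; exact NG_T 0
  | mul_left a ha b _ hb =>
    rcases ha with rfl | rfl | rfl
    · exact (NG_X _).mul hb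
    · exact (NG_T _).mul hb
    · exact (NG_T _).mul hb
  | inv_mul_cancel a ha b _ hb =>
    rcases ha with rfl | rfl | rfl
    · exact (NG_X _).mul hb
    · rw [T_inv]; exact (NG_T _).mul hb
    · rw [T_inv]; exact (NG_T _).mul hb

theorem NG.low {g : Eˣ} (hg : NG g) : Low 0 (g : E) := by
  obtain ⟨a, ha, v, eg⟩ := hg
  rw [eg]
  exact (low_one.add (ha.mono (by omega))).mul (low_tr v)

theorem NG_pow {g : Eˣ} {a : E} {v : ℤ × ℤ} (ha : Low 1 a) (e : (g : E) = (1 + a) * tr v)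
    (n : ℕ) : ∃ b : E, Low 1 b ∧ ((g ^ n : Eˣ) : E) = (1 + b) * tr (n • v) := by
  induction n with
  | zero => exact ⟨0, Low.zero _, by simp [tr_zero]⟩
  | succ n ih =>
    obtain ⟨b, hb, eb⟩ := ih
    have hb' : Low 1 (tr v * b * tr (-v)) := by
      simpa using ((low_tr v).mul hb).mul (low_tr (-v))
    refine ⟨a + tr v * b * tr (-v) + a * (tr v * b * tr (-v)),
      (ha.add hb').add ((ha.mul hb').mono (by omega)), ?_⟩
    have e3 : tr (-v) * tr v = 1 := by rw [tr_mul, neg_add_cancel, tr_zero]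
    have e4 : tr v * (1 + b) = (1 + tr v * b * tr (-v)) * tr v := by
      rw [mul_add, add_mul, mul_one, one_mul, mul_assoc (tr v * b), e3, mul_one]
    rw [pow_succ', Units.val_mul, e, eb, succ_nsmul', ← tr_mul, mul_assoc, ← mul_assoc (tr v), e4]
    noncomm_ring

theorem one_add_pow_two_pow (b : E) (k : ℕ) : (1 + b) ^ (2 ^ k) = 1 + b ^ (2 ^ k) := by
  induction k with
  | zero => simp
  | succ k ih =>
    rw [pow_succ, pow_mul, ih, pow_mul, sq, sq, add_mul, one_mul, mul_add, mul_one, add_assoc,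
      ← add_assoc (b ^ 2 ^ k), E_add_self, zero_add]

theorem tr_fix (n : ℕ) (v : ℤ × ℤ) {f : V} (hf : f ∈ W n) : tr ((2 ^ n : ℕ) • v) f = f := by
  refine V_ext fun r p => ?_
  by_cases hr : n ≤ r
  · rw [tr_apply, hf _ _ hr, hf _ _ hr]
  · rw [tr_apply]
    congr 1
    rw [pt_eq_iff]
    have h : (2 : ℤ) ^ (r + 1) ∣ 2 ^ n := pow_dvd_pow 2 (by omega)
    constructor
    · simpa using h.mul_right v.1
    · simpa using h.mul_right v.2

theorem pow_mem_KK {g : Eˣ} (hg : g ∈ GG) (n : ℕ) : g ^ (2 ^ (n + n)) ∈ KK n := by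
  obtain ⟨a, ha, v, e⟩ := NG_of_mem hg
  obtain ⟨b, hb, eb⟩ := NG_pow ha e (2 ^ n)
  set c : E := ((g ^ (2 ^ n) : Eˣ) : E) + 1 with hc
  have hc1 : ((g ^ (2 ^ n) : Eˣ) : E) = 1 + c := by
    rw [hc, add_comm _ (1 : E), ← add_assoc, E_add_self, zero_add]
  have hc2 : ∀ m, m ≤ n → ∀ f ∈ W m, (c ^ m) f = 0 := by
    intro m
    induction m with
    | zero => intro _ f hf; rw [eq_zero_of_W0 hf, map_zero]
    | succ m ih =>
      intro hm f hf
      have h1 : c f = b f := by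
        rw [hc, eb, LinearMap.add_apply, Module.End.mul_apply, tr_fix n v (W_mono hm hf),
          LinearMap.add_apply, Module.End.one_apply, add_comm f, add_assoc]
        have : f + f = 0 := by funext ν; exact F_add_self _
        rw [this, add_zero]
      rw [pow_succ, Module.End.mul_apply, h1]
      exact ih (by omega) _ (hb m f hf)
  intro f hf
  rw [pow_add, pow_mul, Units.val_pow_eq_pow_val, hc1, one_add_pow_two_pow]
  have h2 : n ≤ 2 ^ n := (Nat.lt_two_pow_self (n := n)).le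
  obtain ⟨l, hl⟩ := Nat.exists_eq_add_of_le' h2
  rw [LinearMap.add_apply, hl, pow_add, Module.End.mul_apply, hc2 n le_rfl f hf, map_zero,
    add_zero, Module.End.one_apply]

theorem finite_W (n : ℕ) : Finite (W n) := by
  let φ : W n → ((Σ r : Fin n, ZMod (2 ^ (r.1 + 1)) × ZMod (2 ^ (r.1 + 1))) → F) :=
    fun f i => f.1 ⟨i.1.1, i.2⟩
  refine Finite.of_injective φ fun f g h => ?_
  apply Subtype.ext
  refine V_ext fun r p => ?_
  by_cases hr : n ≤ r
  · rw [f.2 _ _ hr, g.2 _ _ hr]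
  · exact congrFun h ⟨⟨r, by omega⟩, (pt r p).2⟩

/-- the action of the group on `W n` -/
noncomputable def act (n : ℕ) : GG →* Equiv.Perm (W n) :=
  MonoidHom.toHomPerm
    { toFun := fun g f => ⟨((g : Eˣ) : E) f.1, (NG_of_mem g.2).low n _ f.2⟩
      map_one' := rfl
      map_mul' := fun _ _ => rfl }

theorem act_eq_one_iff (n : ℕ) (g : GG) : act n g = 1 ↔ (g : Eˣ) ∈ KK n := by
  constructor
  · intro h f hf
    have := congrArg (fun σ : Equiv.Perm (W n) => (σ ⟨f, hf⟩).1) h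
    exact this
  · intro h
    ext1 f
    exact Subtype.ext (h f.1 f.2)

theorem exists_lcs (n : ℕ) :
    ∃ c, Subgroup.lowerCentralSeries (⊤ : Subgroup GG) c ≤ (KK n).subgroupOf GG := by
  have := finite_W n
  have hp : IsPGroup 2 (act n).range := by
    rintro ⟨_, g, rfl⟩
    refine ⟨n + n, Subtype.ext ?_⟩
    have : act n (g ^ (2 ^ (n + n))) = 1 := (act_eq_one_iff n _).2 (pow_mem_KK g.2 n)
    simpa using this
  have hn := hp.isNilpotent
  obtain ⟨c, hc⟩ := (isNilpotent_iff_lowerCentralSeries _).1 hn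
  refine ⟨c, fun g hg => ?_⟩
  rw [mem_subgroupOf, ← act_eq_one_iff]
  have h1 : act n g ∈ (Subgroup.lowerCentralSeries (⊤ : Subgroup GG) c).map (act n) :=
    mem_map_of_mem _ hg
  rw [map_lowerCentralSeries, ← MonoidHom.range_eq_map, hc] at h1
  exact h1

end Pool.Agent.Lib.MP_4016fc_al
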