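import Mathlib
import Pool.Agent.Lib.MP_4016fc_al.Grp

namespace Pool.Agent.Lib.MP_4016fc_al

open Subgroup
open scoped commutatorElement

theorem T_comm (v w : ℤ × ℤ) : T v * T w * (T v)⁻¹ = T w := by
  rw [T_mul, add_comm, ← T_mul, mul_inv_cancel_right]

theorem conj_mem_iSup {g : Eˣ} (hg : g ∈ GG) {a : Eˣ} (ha : a ∈ ⨆ R, PP R) :
    g * a * g⁻¹ ∈ ⨆ R, PP R := by
  have hX : ∀ q, X q ∈ ⨆ R, PP R := fun q => mem_iSup_of_mem q.2.natAbs (X_mem_PP le_rfl)
  have hT : ∀ v, ∀ a ∈ ⨆ R, PP R, T v * a * (T v)⁻¹ ∈ ⨆ R, PP R := by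
    intro v a ha
    have : (⨆ R, PP R) ≤ (⨆ R, PP R).comap (MulAut.conj (T v)).toMonoidHom := by
      refine iSup_le fun R => PP_le ?_ ?_ ?_
      · simp only [mem_comap, MulEquiv.coe_toMonoidHom, MulAut.conj_apply, T_comm]
        exact mem_iSup_of_mem 0 (T_mem_PP 0 1)
      · intro q _
        simp only [mem_comap, MulEquiv.coe_toMonoidHom, MulAut.conj_apply, conj_X]
        exact hX _
      · intro q
        refine mul_mem ?_ ?_ <;>
        · simp only [mem_comap, MulEquiv.coe_toMonoidHom, MulAut.conj_apply, conj_X]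
          exact hX _
    exact this ha
  have hXc : ∀ q, ∀ a ∈ ⨆ R, PP R, X q * a * (X q)⁻¹ ∈ ⨆ R, PP R := fun q a ha =>
    mul_mem (mul_mem (hX q) ha) (inv_mem (hX q))
  induction hg using closure_induction_left generalizing a with
  | one => simpa using ha
  | mul_left b hb c _ ih =>
    have e : b * c * a * (b * c)⁻¹ = b * (c * a * c⁻¹) * b⁻¹ := by group
    rw [e]
    rcases hb with rfl | rfl | rfl
    · exact hXc _ _ (ih ha)
    · exact hT _ _ (ih ha)
    · exact hT _ _ (ih ha)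
  | inv_mul_cancel b hb c _ ih =>
    have e : b⁻¹ * c * a * (b⁻¹ * c)⁻¹ = b⁻¹ * (c * a * c⁻¹) * b⁻¹⁻¹ := by group
    rw [e]
    rcases hb with rfl | rfl | rfl
    · exact hXc _ _ (ih ha)
    · rw [T_inv]; exact hT _ _ (ih ha)
    · rw [T_inv]; exact hT _ _ (ih ha)

/-- the first ascendant subgroup -/
noncomputable def AA : Subgroup GG := (PP 0).subgroupOf GG

theorem AA_asc : IsAscendant AA := by
  refine isAscendant_of_chain (fun R => (PP R).subgroupOf GG)
    (fun R => comap_mono (PP_mono (Nat.le_succ R))) ((⨆ R, PP R).subgroupOf GG) ?_ ?_ ?_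
  · constructor
    intro a ha g
    exact conj_mem_iSup g.2 ha
  · apply le_antisymm
    · intro g hg
      have hdir : Directed (· ≤ ·) PP := Monotone.directed_le fun _ _ h => PP_mono h
      obtain ⟨R, hR⟩ := (mem_iSup_of_directed hdir).1 hg
      exact mem_iSup_of_mem R hR
    · exact iSup_le fun R => comap_mono (le_iSup PP R)
  · intro R
    obtain ⟨c, hc⟩ := exists_lcs (R + 1 + 2)
    refine ⟨c, fun g hg => ?_⟩
    obtain ⟨h1, h2⟩ := mem_inf.1 hg
    exact PP_mono (Nat.zero_le R) (PP_inf_KK (R + 1) (mem_inf.2 ⟨h1, hc h2⟩))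

/-- the abelian normal subgroup of `PP 0` -/
def SS : Subgroup Eˣ where
  carrier := {g | ∃ u ∈ U 0, (g : E) = 1 + u}
  one_mem' := ⟨0, (U 0).zero_mem, by simp⟩
  mul_mem' := by
    rintro a b ⟨u, hu, ea⟩ ⟨v, hv, eb⟩
    refine ⟨u + v, (U 0).add_mem hu hv, ?_⟩
    rw [Units.val_mul, ea, eb, add_mul, one_mul, mul_add, mul_one, U0_mul hu hv, add_zero,
      add_assoc, add_comm v]
  inv_mem' := by
    rintro a ⟨u, hu, ea⟩
    refine ⟨u, hu, ?_⟩
    have : a * a = 1 := Units.ext (by rw [Units.val_mul, ea, one_add_sq (U0_mul hu hu)]; rfl)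
    rw [inv_eq_of_mul_eq_one_right this, ea]

theorem SS_comm {a b : Eˣ} (ha : a ∈ SS) (hb : b ∈ SS) : a * b = b * a := by
  obtain ⟨u, hu, ea⟩ := ha
  obtain ⟨v, hv, eb⟩ := hb
  apply Units.ext
  rw [Units.val_mul, Units.val_mul, ea, eb, add_mul, one_mul, mul_add, mul_one, U0_mul hu hv,
    add_mul, one_mul, mul_add, mul_one, U0_mul hv hu]
  abel

theorem T_conj_SS (k : ℤ) {a : Eˣ} (ha : a ∈ SS) : T (k, 0) * a * (T (k, 0))⁻¹ ∈ SS := by
  obtain ⟨u, hu, ea⟩ := ha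
  obtain ⟨u', hu', e⟩ := tr_mul_U k hu
  refine ⟨u', hu', ?_⟩
  have e3 : tr ((k, 0) : ℤ × ℤ) * tr (-(k, 0)) = 1 := by rw [tr_mul, add_neg_cancel, tr_zero]
  rw [T_inv, Units.val_mul, Units.val_mul, ea, T_val, T_val, mul_add, mul_one, e, add_mul,
    mul_assoc, e3, mul_one]

theorem PP0_form {g : Eˣ} (hg : g ∈ PP 0) : ∃ a ∈ SS, ∃ k : ℤ, g = a * T (k, 0) := by
  obtain ⟨u, hu, y, hy1, hy2, k, e⟩ := NF_of_mem hg
  rw [eq_zero_of_low_sup hy1 hy2, add_zero] at e
  refine ⟨g * (T (k, 0))⁻¹, ⟨u, hu, ?_⟩, k, by simp⟩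
  have e3 : tr ((k, 0) : ℤ × ℤ) * tr (-(k, 0)) = 1 := by rw [tr_mul, add_neg_cancel, tr_zero]
  rw [T_inv, Units.val_mul, e, T_val, mul_assoc, e3, mul_one]

theorem comm_PP0 {g h : Eˣ} (hg : g ∈ PP 0) (hh : h ∈ PP 0) : ⁅g, h⁆ ∈ SS := by
  obtain ⟨a, ha, k, rfl⟩ := PP0_form hg
  obtain ⟨b, hb, l, rfl⟩ := PP0_form hh
  have e1 : T (k, 0) * T (l, 0) = T (l, 0) * T (k, 0) := by rw [T_mul, T_mul, add_comm]
  have e : ⁅a * T (k, 0), b * T (l, 0)⁆ =
      a * (T (k, 0) * b * (T (k, 0))⁻¹) * (T (l, 0) * a * (T (l, 0))⁻¹)⁻¹ * b⁻¹ := by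
    rw [commutatorElement_def]
    have : T (l, 0) = (T (k, 0))⁻¹ * T (l, 0) * T (k, 0) := by
      rw [mul_assoc, ← e1]; group
    nth_rewrite 1 [this]
    group
  rw [e]
  exact mul_mem (mul_mem (mul_mem ha (T_conj_SS k hb)) (inv_mem (T_conj_SS l ha))) (inv_mem hb)

theorem metabelian_of {G : Type} [Group G] (A S : Subgroup G)
    (h1 : ∀ g ∈ A, ∀ h ∈ A, ⁅g, h⁆ ∈ S) (h2 : ∀ a ∈ S, ∀ b ∈ S, a * b = b * a) :
    derivedSeries A 2 = ⊥ := by
  have e1 : derivedSeries A 1 ≤ S.comap A.subtype := by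
    rw [derivedSeries_succ, derivedSeries_zero, commutator_le]
    intro g _ h _
    rw [mem_comap, map_commutatorElement]
    exact h1 _ g.2 _ h.2
  rw [derivedSeries_succ, eq_bot_iff, commutator_le]
  intro g hg h hh
  rw [mem_bot, commutatorElement_eq_one_iff_mul_comm]
  exact Subtype.ext (h2 _ (e1 hg) _ (e1 hh))

theorem AA_data : (∀ g ∈ AA, ∀ h ∈ AA, ⁅g, h⁆ ∈ SS.subgroupOf GG) ∧
    ∀ a ∈ SS.subgroupOf GG, ∀ b ∈ SS.subgroupOf GG, a * b = b * a :=
  ⟨fun _ hg _ hh => comm_PP0 hg hh, fun _ ha _ hb => Subtype.ext (SS_comm ha hb)⟩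

theorem Sw_inv : Sw⁻¹ = Sw := rfl

theorem Sw_X (q : ℤ × ℤ) : Sw * X q * Sw = X q.swap := by
  apply Units.ext
  rw [Units.val_mul, Units.val_mul, Sw_val, X_val, X_val, mul_add, mul_one, swE_mul_x, add_mul,
    mul_assoc, swE_mul_swE, mul_one]

theorem Sw_T (v : ℤ × ℤ) : Sw * T v * Sw = T v.swap := by
  apply Units.ext
  rw [Units.val_mul, Units.val_mul, Sw_val, T_val, T_val, swE_mul_tr, mul_assoc, swE_mul_swE,
    mul_one]

theorem Sw_conj_mem {g : Eˣ} (hg : g ∈ GG) : Sw * g * Sw ∈ GG := by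
  have : GG ≤ GG.comap (MulAut.conj Sw).toMonoidHom := by
    rw [GG, closure_le]
    rintro g (rfl | rfl | rfl) <;>
      simp only [SetLike.mem_coe, mem_comap, MulEquiv.coe_toMonoidHom, MulAut.conj_apply, Sw_inv,
        Sw_X, Sw_T]
    · exact X_mem_GG _
    · exact T_mem_GG _
    · exact T_mem_GG _
  exact this hg

theorem Sw_mul_Sw : Sw * Sw = 1 := Units.ext swE_mul_swE

/-- the swap automorphism -/
noncomputable def theta : GG ≃* GG where
  toFun g := ⟨Sw * g * Sw, Sw_conj_mem g.2⟩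
  invFun g := ⟨Sw * g * Sw, Sw_conj_mem g.2⟩
  left_inv g := Subtype.ext (by
    simp only [← mul_assoc, Sw_mul_Sw, one_mul]
    rw [mul_assoc, Sw_mul_Sw, mul_one])
  right_inv g := Subtype.ext (by
    simp only [← mul_assoc, Sw_mul_Sw, one_mul]
    rw [mul_assoc, Sw_mul_Sw, mul_one])
  map_mul' g h := Subtype.ext (by
    simp only [coe_mul, ← mul_assoc]
    rw [mul_assoc (Sw * g) Sw Sw, Sw_mul_Sw, mul_one])

/-- the second ascendant subgroup -/
noncomputable def BB : Subgroup GG := AA.map theta.toMonoidHom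

theorem BB_asc : IsAscendant BB := AA_asc.map_equiv theta

theorem AA_metabelian : derivedSeries AA 2 = ⊥ := metabelian_of _ _ AA_data.1 AA_data.2

theorem BB_metabelian : derivedSeries BB 2 = ⊥ := by
  refine metabelian_of _ ((SS.subgroupOf GG).map theta.toMonoidHom) ?_ ?_
  · rintro _ ⟨g, hg, rfl⟩ _ ⟨h, hh, rfl⟩
    exact ⟨⁅g, h⁆, AA_data.1 g hg h hh, map_commutatorElement _ _ _⟩
  · rintro _ ⟨g, hg, rfl⟩ _ ⟨h, hh, rfl⟩
    rw [← map_mul, ← map_mul, AA_data.2 g hg h hh]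

theorem sup_eq_top : AA ⊔ BB = ⊤ := by
  rw [eq_top_iff]
  rintro ⟨g, hg⟩ -
  induction hg using closure_induction with
  | mem a ha =>
    rcases ha with rfl | rfl | rfl
    · exact mem_sup_left (X_mem_PP (by simp))
    · exact mem_sup_left (T_mem_PP 0 1)
    · exact mem_sup_right ⟨⟨T (1, 0), T_mem_GG _⟩, T_mem_PP 0 1, Subtype.ext (Sw_T _)⟩
  | one => exact one_mem _
  | mul a b ha hb iha ihb => exact mul_mem iha ihb
  | inv a ha iha => exact inv_mem iha

theorem GG_fg : Group.FG GG := by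
  classical
  rw [Group.fg_iff_subgroup_fg]
  exact ⟨{X 0, T (1, 0), T (0, 1)}, by simp [GG]⟩

open Classical in
/-- matrix units -/
noncomputable def mu (a b : Idx) : E where
  toFun f := fun ν => if ν = a then f b else 0
  map_add' f g := by
    funext ν
    simp only [Pi.add_apply]
    split_ifs <;> simp
  map_smul' c f := by
    funext ν
    simp only [Pi.smul_apply, RingHom.id_apply]
    split_ifs <;> simp

open Classical in
theorem mu_apply (a b : Idx) (f : V) (ν : Idx) : mu a b f ν = if ν = a then f b else 0 := rfl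

theorem mu_mul_same (a b c : Idx) : mu a b * mu b c = mu a c :=
  LinearMap.ext fun f => funext fun ν => by simp [mu_apply]

theorem mu_mul_ne {b b' : Idx} (h : b ≠ b') (a c : Idx) : mu a b * mu b' c = 0 :=
  LinearMap.ext fun f => funext fun ν => by simp [mu_apply, h]

noncomputable def zz (r l : ℕ) (q : ℤ × ℤ) : E :=
  mu (pt r (q + dg r)) (pt (l + 1) q) + mu (pt r (q + dg r)) (pt (l + 1) (q + dg l))

theorem zz_mul_zz_ne {r l r' l' : ℕ} (h : l + 1 ≠ r') (q q' : ℤ × ℤ) :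
    zz r l q * zz r' l' q' = 0 := by
  simp only [zz, add_mul, mul_add, mu_mul_ne (pt_ne h _ _), add_zero]

theorem pow_dvd_sub_iff (a b : ℕ) :
    (2 : ℤ) ^ (a + 1) ∣ 2 ^ a - 2 ^ b ↔ a = b := by
  constructor
  · intro h
    by_contra hne
    rcases lt_or_gt_of_ne hne with hl | hl
    · have h1 : (2 : ℤ) ^ (a + 1) ∣ 2 ^ b := pow_dvd_pow 2 hl
      have h2 := dvd_add h h1
      rw [sub_add_cancel] at h2
      exact not_dvd_pow a h2
    · have h1 : (2 : ℤ) ^ (b + 1) ∣ 2 ^ a - 2 ^ b := (pow_dvd_pow 2 (by omega)).trans h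
      have h2 : (2 : ℤ) ^ (b + 1) ∣ 2 ^ a := pow_dvd_pow 2 hl
      have h3 := dvd_sub h2 h1
      rw [sub_sub_cancel] at h3
      exact not_dvd_pow b h3
  · rintro rfl
    simp

theorem pow_dvd_add_iff (a b : ℕ) :
    (2 : ℤ) ^ (a + 1) ∣ 2 ^ b + 2 ^ a ↔ a = b := by
  rw [← pow_dvd_sub_iff a b]
  have e : (2 : ℤ) ^ b + 2 ^ a = 2 ^ (a + 1) - (2 ^ a - 2 ^ b) := by ring
  rw [e, dvd_sub_right (dvd_refl _)]

theorem pt_add_dg {r l : ℕ} (h : r < l) (q w : ℤ × ℤ) :
    pt r (q + dg l + w) = pt r (q + w) := by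
  rw [pt_eq_iff]
  have h1 : (2 : ℤ) ^ (r + 1) ∣ 2 ^ l := pow_dvd_pow 2 h
  constructor
  · simp only [Prod.fst_add, dg_fst]
    rwa [show q.1 + w.1 - (q.1 + 2 ^ l + w.1) = -2 ^ l by ring, dvd_neg]
  · simp only [Prod.snd_add, dg_snd]
    rwa [show q.2 + w.2 - (q.2 + 2 ^ l + w.2) = -2 ^ l by ring, dvd_neg]

theorem x_mul_x_1 (r : ℕ) (q : ℤ × ℤ) :
    x q * x (q + dg (r + 1)) = mu (pt r (q + dg r)) (pt (r + 1 + 1) (q + dg (r + 1))) := by
  refine E_ext fun f s p => ?_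
  simp only [Module.End.mul_apply, x_apply, mu_apply]
  have h : pt (s + 1) q = pt (s + 1) (q + dg (r + 1) + dg (s + 1)) ↔ s = r := by
    rw [pt_eq_iff]
    simp only [Prod.fst_add, Prod.snd_add, dg_fst, dg_snd, add_assoc q.1, add_assoc q.2,
      add_sub_cancel_left, and_self, pow_dvd_add_iff]
    omega
  by_cases e : s = r
  · subst e
    simp only [h.2 rfl |> if_pos]
  · rw [if_neg (fun e' => e (h.1 e')), if_neg (pt_ne e _ _)]
    simp

theorem x_mul_x_2 (r : ℕ) (q : ℤ × ℤ) :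
    x (q + dg (r + 1)) * x q = mu (pt r (q + dg r)) (pt (r + 1 + 1) q) := by
  refine E_ext fun f s p => ?_
  simp only [Module.End.mul_apply, x_apply, mu_apply]
  have h : pt (s + 1) (q + dg (r + 1)) = pt (s + 1) (q + dg (s + 1)) ↔ s = r := by
    rw [pt_eq_iff]
    simp only [Prod.fst_add, Prod.snd_add, dg_fst, dg_snd, add_sub_add_left_eq_sub,
      and_self, pow_dvd_sub_iff]
    omega
  by_cases e : s = r
  · subst e
    rw [pt_add_dg (Nat.lt_succ_self s)]
    simp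
  · rw [if_neg (fun e' => e (h.1 e')), if_neg (pt_ne e _ _)]
    simp

theorem mu_mul_x {b : Idx} {q : ℤ × ℤ} (h : ∀ r, b ≠ pt r (q + dg r)) (a : Idx) :
    mu a b * x q = 0 := by
  obtain ⟨s, p, rfl⟩ := pt_surj b
  refine LinearMap.ext fun f => funext fun ν => ?_
  simp [mu_apply, x_apply, h s]

theorem comm_val {g h : Eˣ} {a b : E} (eg : (g : E) = 1 + a) (eh : (h : E) = 1 + b)
    (ha : a * a = 0) (hb : b * b = 0) (h1 : a * b * a = 0) (h2 : b * a * b = 0) :
    ((⁅g, h⁆ : Eˣ) : E) = 1 + (a * b + b * a) := by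
  have ig : g⁻¹ = g := inv_eq_of_mul_eq_one_right
    (Units.ext (by rw [Units.val_mul, eg, one_add_sq ha]; rfl))
  have ih : h⁻¹ = h := inv_eq_of_mul_eq_one_right
    (Units.ext (by rw [Units.val_mul, eh, one_add_sq hb]; rfl))
  rw [commutatorElement_def, ig, ih]
  simp only [Units.val_mul, eg, eh]
  have e : (1 + a) * (1 + b) * (1 + a) * (1 + b) =
      1 + (a * b + b * a) + ((a + a) + (b + b) + (a * b + a * b) + a * a + b * b + a * b * a +
        b * a * b + a * a * b + a * (b * b) + a * b * a * b) := by noncomm_ring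
  rw [e, E_add_self a, E_add_self b, E_add_self (a * b), ha, hb, h1, h2]
  simp

theorem zz_mem (n : ℕ) : ∀ r, ∃ l, r < l ∧ ∀ q, ∃ g : GG, g ∈ derivedSeries GG n ∧
    ((g : Eˣ) : E) = 1 + zz r l q := by
  induction n with
  | zero =>
    intro r
    refine ⟨r + 1, Nat.lt_succ_self r, fun q => ?_⟩
    refine ⟨⁅(⟨X q, X_mem_GG _⟩ : GG), ⟨X (q + dg (r + 1)), X_mem_GG _⟩⁆, mem_top _, ?_⟩
    have h := comm_val (X_val q) (X_val (q + dg (r + 1))) (x_mul_x_row rfl) (x_mul_x_row rfl)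
      ?_ ?_
    · rw [x_mul_x_1, x_mul_x_2, add_comm (mu _ _)] at h
      exact h
    · rw [x_mul_x_1]
      refine mu_mul_x (fun s e => ?_) _
      obtain rfl : r + 1 + 1 = s := congrArg Sigma.fst e
      have := ((pt_eq_iff _ _ _).1 e).1
      simp only [Prod.fst_add, dg_fst, add_sub_add_left_eq_sub, pow_dvd_sub_iff] at this
      omega
    · rw [x_mul_x_2]
      refine mu_mul_x (fun s e => ?_) _
      obtain rfl : r + 1 + 1 = s := congrArg Sigma.fst e
      have := ((pt_eq_iff _ _ _).1 e).1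
      simp only [Prod.fst_add, dg_fst, add_assoc q.1, add_sub_cancel_left,
        pow_dvd_add_iff] at this
      omega
  | succ n ih =>
    intro r
    obtain ⟨l, hl, h1⟩ := ih r
    obtain ⟨l', hl', h2⟩ := ih (l + 1)
    refine ⟨l', by omega, fun q => ?_⟩
    obtain ⟨g, hg, eg⟩ := h1 (q + dg (l + 1))
    obtain ⟨h, hh, eh⟩ := h2 q
    refine ⟨⁅g, h⁆, commutator_mem_commutator hg hh, ?_⟩
    have hba : zz (l + 1) l' q * zz r l (q + dg (l + 1)) = 0 := zz_mul_zz_ne (by omega) _ _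
    have hne : pt (l + 1) (q + dg (l + 1) + dg l) ≠ pt (l + 1) (q + dg (l + 1)) := by
      intro e
      have := ((pt_eq_iff _ _ _).1 e).1
      simp only [Prod.fst_add, dg_fst, sub_add_cancel_left, dvd_neg] at this
      exact not_dvd_pow l ((pow_dvd_pow 2 (by omega)).trans this)
    have hab : zz r l (q + dg (l + 1)) * zz (l + 1) l' q = zz r l' q := by
      simp only [zz, add_mul, mul_add, mu_mul_same, mu_mul_ne hne, add_zero]
      rw [pt_add_dg (by omega)]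
    have h := comm_val eg eh (zz_mul_zz_ne (by omega) _ _) (zz_mul_zz_ne (by omega) _ _)
      (by rw [mul_assoc, hba, mul_zero]) (by rw [hba, zero_mul])
    rw [hab, hba, add_zero] at h
    exact h

theorem zz_ne_zero (r l : ℕ) (q : ℤ × ℤ) : zz r l q ≠ 0 := by
  classical
  intro e
  have hne : pt (l + 1) (q + dg l) ≠ pt (l + 1) q := by
    intro e
    have := ((pt_eq_iff _ _ _).1 e).1
    simp only [Prod.fst_add, dg_fst, sub_add_cancel_left, dvd_neg] at this
    exact not_dvd_pow l ((pow_dvd_pow 2 (by omega)).trans this)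
  have := congrFun (LinearMap.congr_fun e (Pi.single (pt (l + 1) q) 1)) (pt r (q + dg r))
  simp [zz, mu_apply, hne] at this

theorem GG_not_solvable : ¬ Group.IsSolvable GG := by
  rintro ⟨n, hn⟩
  obtain ⟨l, _, h⟩ := zz_mem n 0
  obtain ⟨g, hg, eg⟩ := h 0
  rw [hn, mem_bot] at hg
  rw [hg] at eg
  apply zz_ne_zero 0 l 0
  simpa using eg.symm

end Pool.Agent.Lib.MP_4016fc_al
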